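import Mathlib
import Pool.Agent.H8.Ill.Inner
import Pool.Agent.H8.Ill.Outer

namespace Pool.Agent.Results.MP_26bcd4_gt.Both

open Pool.Agent.H8.Ill

theorem result : InnerUnbounded 4 ∧ OuterUnbounded 3 :=
  ⟨innerUnbounded, outerUnbounded⟩

end Pool.Agent.Results.MP_26bcd4_gt.Both
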